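import Mathlib
import Pool.Agent.H91.Edge.Dist4
import Pool.Agent.H86.EDGE.Short
import Pool.Agent.H5.GR.SM

/-!
Moments on the edge, truncated; moments of the random products.
-/

open Complex MeasureTheory Filter Topology

namespace Pool.Agent.H91.GR

open Pool.Agent.H91.Edge
open Pool.Agent.H89.EdgeBasic (Hyp)

lemma rpow_le_abs {r A s : ℝ} (hA : 0 < A) (h1 : A⁻¹ ≤ r) (h2 : r ≤ A) : r ^ s ≤ A ^ |s| := by
  have hr : 0 < r := (inv_pos.mpr hA).trans_le h1
  rcases le_total 0 s with h | h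
  · rw [abs_of_nonneg h]
    exact Real.rpow_le_rpow hr.le h2 h
  · rw [abs_of_nonpos h]
    have h3 : r⁻¹ ≤ A := by
      rw [inv_le_comm₀ hr hA]
      exact h1
    calc r ^ s = r⁻¹ ^ (-s) := by
          rw [Real.inv_rpow hr.le, Real.rpow_neg hr.le, inv_inv]
      _ ≤ A ^ (-s) := Real.rpow_le_rpow (by positivity) h3 (by linarith)

lemma Yf_cont {N i b : ℕ} {P : ℕ → Polynomial ℂ} (H : Hyp N i b P) (y : ℕ) :
    Continuous (Yf N i P y) ∧ ∀ t, Yf N i P y t ≠ 0 := by
  constructor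
  · have h1 : Yf N i P y = fun t => Psi N i P y (flow (om y) t) := by
      funext t
      exact (Psi_flow y t).symm
    rw [h1]
    exact (continuous_Psi H y).comp (continuous_flow (om y))
  · intro t
    rw [← Psi_flow]
    exact Psi_ne H y _

lemma cont_norm_rpow {α : Type*} [TopologicalSpace α] {f : α → ℂ} (hf : Continuous f)
    (h0 : ∀ x, f x ≠ 0) (s : ℝ) : Continuous fun x => ‖f x‖ ^ s := by
  rw [continuous_iff_continuousAt]
  intro x
  exact (hf.norm.continuousAt).rpow_const (Or.inl (norm_ne_zero_iff.mpr (h0 x)))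

/-- moments over sets in a window where the value is between `T^(-c)` and `T^c` -/
lemma trunc_moment (b : ℕ) {c s : ℝ} (hs : c * |s| < 1) :
    ∃ C T0 : ℝ, 0 ≤ C ∧ 3 ≤ T0 ∧ ∀ (N i : ℕ) (P : ℕ → Polynomial ℂ), Hyp N i b P → ∀ ℓ : ℝ → ℂ,
      EV N i P ℓ → ∀ T : ℝ, T0 ≤ T → ∀ a : ℝ, ∀ S : Set ℝ, NullMeasurableSet S volume →
        S ⊆ Set.Icc a (a + T) → (∀ t ∈ S, T ^ (-c) ≤ ‖ℓ t‖ ∧ ‖ℓ t‖ ≤ T ^ c) →
          IntegrableOn (fun t => ‖ℓ t‖ ^ s) S ∧ ∫ t in S, ‖ℓ t‖ ^ s ≤ C * T := by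
  obtain ⟨B, hB1, hB⟩ := Pool.Agent.H86.EDGE.short b (ε := 1 - c * |s|) (by linarith)
  have hB0 : (0:ℝ) < B := by exact_mod_cast (by omega : 0 < B)
  obtain ⟨C, T1, hT1, hC⟩ := Pool.Agent.H5.GR.short_moment b s B hB0
  obtain ⟨T2, hT2⟩ := eventually_atTop.mp hB
  refine ⟨2 ^ |s| * |C| + 1, max (max T1 T2) (Real.exp 2), by positivity,
    hT1.trans ((le_max_left _ _).trans (le_max_left _ _)), ?_⟩
  intro N i P H ℓ hℓ T hT a S hS hSI hSb
  have hTT1 : T1 ≤ T := (le_max_left _ _).trans ((le_max_left _ _).trans hT)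
  have hTT2 : T2 ≤ T := (le_max_right _ _).trans ((le_max_left _ _).trans hT)
  have hTe : Real.exp 2 ≤ T := (le_max_right _ _).trans hT
  have hT0 : 0 < T := by linarith
  have hlog : 2 ≤ Real.log T := by
    rw [Real.le_log_iff_exp_le hT0]
    exact hTe
  obtain ⟨Z, hZm, hZv, hZ⟩ := hT2 T hTT2 N i P H
  set x : ℕ := ⌊Real.log T ^ B⌋₊ with hx
  have hxle : (x:ℝ) ≤ Real.log T ^ (B:ℝ) := by
    rw [Real.rpow_natCast]
    exact Nat.floor_le (by positivity)
  have hmom := hC N i P H T hTT1 x hxle a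
  obtain ⟨hYc, hYne⟩ := Yf_cont H x
  have hYs : Continuous fun t => ‖Yf N i P x t‖ ^ s := cont_norm_rpow hYc hYne s
  set g : ℝ → ℝ := fun t => 2 ^ |s| * ‖Yf N i P x t‖ ^ s + Z.indicator (fun _ => T ^ (c * |s|)) t
    with hg
  have hg0 : ∀ t, 0 ≤ g t := by
    intro t
    have h1 : 0 ≤ Z.indicator (fun _ => T ^ (c * |s|)) t :=
      Set.indicator_nonneg (fun _ _ => by positivity) t
    have h2 : 0 ≤ 2 ^ |s| * ‖Yf N i P x t‖ ^ s := by positivity
    simp only [hg]
    linarith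
  have i1 : IntegrableOn (fun t => 2 ^ |s| * ‖Yf N i P x t‖ ^ s) (Set.Icc a (a + T)) :=
    (hYs.const_smul ((2:ℝ) ^ |s|)).continuousOn.integrableOn_Icc
  have i2 : IntegrableOn (fun t => Z.indicator (fun _ => T ^ (c * |s|)) t) (Set.Icc a (a + T)) := by
    apply Integrable.indicator _ hZm
    exact integrableOn_const (by simp [Real.volume_Icc])
  have hgi : IntegrableOn g (Set.Icc a (a + T)) := i1.add i2
  have hfg : ∀ᵐ t ∂(volume.restrict S), ‖ℓ t‖ ^ s ≤ g t := by
    rw [ae_restrict_iff'₀ hS]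
    filter_upwards [hℓ] with t ht htS
    by_cases htZ : t ∈ Z
    · have h1 : ‖ℓ t‖ ^ s ≤ (T ^ c) ^ |s| := by
        apply rpow_le_abs (by positivity)
        · rw [← Real.rpow_neg hT0.le]
          exact (hSb t htS).1
        · exact (hSb t htS).2
      rw [← Real.rpow_mul hT0.le] at h1
      have h2 : 0 ≤ 2 ^ |s| * ‖Yf N i P x t‖ ^ s := by positivity
      simp only [hg, Set.indicator_of_mem htZ]
      linarith
    · have h1 := hZ t htZ (ℓ t) ht.2.1
      have h2 : 1 / Real.log T ≤ 1 / 2 := by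
        apply one_div_le_one_div_of_le (by norm_num) hlog
      have hYt : ‖Yf N i P x t‖ ≠ 0 := norm_ne_zero_iff.mpr (hYne t)
      have h3 : ‖ℓ t / Yf N i P x t‖ ≤ 2 := by
        calc ‖ℓ t / Yf N i P x t‖ = ‖(ℓ t / Yf N i P x t - 1) + 1‖ := by congr 1; ring
          _ ≤ ‖ℓ t / Yf N i P x t - 1‖ + ‖(1:ℂ)‖ := norm_add_le _ _
          _ ≤ 2 := by rw [norm_one]; linarith
      have h4 : (2:ℝ)⁻¹ ≤ ‖ℓ t / Yf N i P x t‖ := by
        have h5 : ‖(1:ℂ)‖ ≤ ‖ℓ t / Yf N i P x t‖ + ‖ℓ t / Yf N i P x t - 1‖ := by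
          calc ‖(1:ℂ)‖ = ‖ℓ t / Yf N i P x t - (ℓ t / Yf N i P x t - 1)‖ := by congr 1; ring
            _ ≤ _ := norm_sub_le _ _
        rw [norm_one] at h5
        linarith
      have h5 := rpow_le_abs (s := s) (by norm_num) h4 h3
      have h6 : ‖ℓ t‖ = ‖ℓ t / Yf N i P x t‖ * ‖Yf N i P x t‖ := by
        rw [norm_div, div_mul_cancel₀ _ hYt]
      have h7 : ‖ℓ t‖ ^ s ≤ 2 ^ |s| * ‖Yf N i P x t‖ ^ s := by
        rw [h6, Real.mul_rpow (norm_nonneg _) (norm_nonneg _)]
        exact mul_le_mul_of_nonneg_right h5 (by positivity)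
      simp only [hg, Set.indicator_of_notMem htZ]
      linarith
  have hgS : IntegrableOn g S := hgi.mono_set hSI
  have hmeas : AEStronglyMeasurable (fun t => ‖ℓ t‖ ^ s) volume := by
    have h1 : AEMeasurable (fun t => ‖ℓ t‖) volume := (hℓ.meas H).norm.aemeasurable
    exact (h1.pow_const s).aestronglyMeasurable
  refine ⟨?_, ?_⟩
  · refine Integrable.mono' hgS hmeas.restrict ?_
    filter_upwards [hfg] with t ht
    rw [Real.norm_of_nonneg (by positivity)]
    exact ht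
  · calc ∫ t in S, ‖ℓ t‖ ^ s ≤ ∫ t in S, g t := by
          apply integral_mono_of_nonneg _ hgS hfg
          filter_upwards with t
          positivity
      _ ≤ ∫ t in Set.Icc a (a + T), g t :=
          setIntegral_mono_set hgi (Eventually.of_forall hg0) (Eventually.of_forall hSI)
      _ = 2 ^ |s| * (∫ t in a..(a + T), ‖Yf N i P x t‖ ^ s) +
            (volume (Z ∩ Set.Icc a (a + T))).toReal * T ^ (c * |s|) := by
          simp only [hg]
          rw [integral_add i1 i2, integral_const_mul, integral_Icc_eq_integral_Ioc,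
            ← intervalIntegral.integral_of_le (by linarith), setIntegral_indicator hZm,
            setIntegral_const, smul_eq_mul, Set.inter_comm]
          rfl
      _ ≤ 2 ^ |s| * (|C| * T) + T ^ (1 - c * |s|) * T ^ (c * |s|) := by
          have h1 : (volume (Z ∩ Set.Icc a (a + T))).toReal ≤ T ^ (1 - c * |s|) :=
            ENNReal.toReal_le_of_le_ofReal (by positivity) (hZv a)
          have h2 : ∫ t in a..(a + T), ‖Yf N i P x t‖ ^ s ≤ |C| * T :=
            hmom.trans (mul_le_mul_of_nonneg_right (le_abs_self C) hT0.le)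
          have h3 : (0:ℝ) < 2 ^ |s| := by positivity
          have h4 : 0 < T ^ (c * |s|) := by positivity
          have h5 := mul_le_mul_of_nonneg_left h2 h3.le
          have h6 := mul_le_mul_of_nonneg_right h1 h4.le
          linarith
      _ = (2 ^ |s| * |C| + 1) * T := by
          rw [← Real.rpow_add hT0]
          have : 1 - c * |s| + c * |s| = 1 := by ring
          rw [this, Real.rpow_one]
          ring

/-- moments of the random products are bounded -/
lemma torus_moment {N i b : ℕ} {P : ℕ → Polynomial ℂ} (H : Hyp N i b P) (s : ℝ) :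
    ∃ D : ℝ, 0 ≤ D ∧ ∀ y : ℕ,
      ∫ x in cube (Nat.primesBelow (y + 1)), ‖Psi N i P y (fun p => (x p : UnitAddCircle))‖ ^ s ≤
        D := by
  obtain ⟨C, T1, hT1, hC⟩ := Pool.Agent.H5.GR.short_moment b s 1 one_pos
  refine ⟨|C|, abs_nonneg _, ?_⟩
  intro y
  set F : C(UnitAddTorus (Nat.primesBelow (y + 1)), ℂ) :=
    ⟨fun x => ((‖Psi N i P y x‖ ^ s : ℝ) : ℂ),
      Complex.continuous_ofReal.comp (cont_norm_rpow (continuous_Psi H y) (Psi_ne H y) s)⟩ with hF
  have hKW : KW (om y) F := by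
    apply kron
    intro n hn
    exact log_indep (Nat.primesBelow (y + 1)) (fun p hp => Nat.prime_of_mem_primesBelow hp) n hn
  have hI : tmean F = ((∫ x in cube (Nat.primesBelow (y + 1)),
      ‖Psi N i P y (fun p => (x p : UnitAddCircle))‖ ^ s : ℝ) : ℂ) := by
    unfold tmean
    simp only [hF, ContinuousMap.coe_mk]
    exact integral_ofReal (𝕜 := ℂ) (f := fun x : Nat.primesBelow (y + 1) → ℝ =>
      ‖Psi N i P y (fun p => (x p : UnitAddCircle))‖ ^ s)
  apply le_of_forall_pos_le_add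
  intro ε hε
  obtain ⟨T2, hT2, h2⟩ := hKW ε hε
  set T : ℝ := max (max T1 T2) (Real.exp y) with hTd
  have hTT1 : T1 ≤ T := (le_max_left _ _).trans (le_max_left _ _)
  have hTT2 : T2 ≤ T := (le_max_right _ _).trans (le_max_left _ _)
  have hTe : Real.exp y ≤ T := le_max_right _ _
  have hT0 : 0 < T := by linarith
  have hlog : (y:ℝ) ≤ Real.log T ^ (1:ℝ) := by
    rw [Real.rpow_one, Real.le_log_iff_exp_le hT0]
    exact hTe
  have h3 := hC N i P H T hTT1 y hlog 0
  have h4 := h2 T hTT2 0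
  have h5 : ∫ t in (0:ℝ)..(0 + T), F (flow (om y) t) =
      ((∫ t in (0:ℝ)..(0 + T), ‖Yf N i P y t‖ ^ s : ℝ) : ℂ) := by
    rw [← intervalIntegral.integral_ofReal]
    apply intervalIntegral.integral_congr
    intro t _
    simp only [hF, ContinuousMap.coe_mk, Psi_flow]
  rw [h5, hI, ← Complex.ofReal_div, ← Complex.ofReal_sub, Complex.norm_real, Real.norm_eq_abs] at h4
  have h6 := (abs_le.mp h4).1
  have h7 : (∫ t in (0:ℝ)..(0 + T), ‖Yf N i P y t‖ ^ s) / T ≤ |C| := by
    rw [div_le_iff₀ hT0]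
    exact h3.trans (mul_le_mul_of_nonneg_right (le_abs_self C) hT0.le)
  linarith

end Pool.Agent.H91.GR
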