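import Mathlib
import Pool.Agent.H91.GR.Trunc
import Pool.Agent.H86.EDGE.Item4

/-!
The joint limit law on the edge for functions of any growth: means over the `t` of a window with
`T^(-c) ≤ |E_k(t)| ≤ T^c`.
-/

open Complex MeasureTheory Filter Topology

namespace Pool.Agent.H91.GR

open Pool.Agent.H91.Edge
open Pool.Agent.H89.EdgeBasic (Hyp)

variable {κ : Type} [Fintype κ]

lemma cont_gg (l : ℝ) : ContinuousOn (gg (κ := κ) l) {z | ∀ k, z k ≠ 0} := by
  unfold gg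
  apply continuousOn_finsetSum
  intro k _
  have h1 : ContinuousOn (fun z : κ → ℂ => ‖z k‖) {z | ∀ k, z k ≠ 0} :=
    (continuous_apply k).norm.continuousOn
  apply ContinuousOn.add
  · exact h1.rpow_const fun z hz => Or.inl (norm_ne_zero_iff.mpr (hz k))
  · exact h1.rpow_const fun z hz => Or.inl (norm_ne_zero_iff.mpr (hz k))

lemma cutoff {φ : (κ → ℂ) → ℂ} {l l' C : ℝ} (hl : 0 ≤ l) (hll : l < l') (hC : 0 ≤ C)
    (hφ : ContinuousOn φ {z | ∀ k, z k ≠ 0})
    (hgr : ∀ z : κ → ℂ, (∀ k, z k ≠ 0) → ‖φ z‖ ≤ C * (1 + gg l z)) {ε : ℝ} (hε : 0 < ε) :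
    ∃ (ψ : (κ → ℂ) → ℂ) (M : ℝ), 0 ≤ M ∧ ContinuousOn ψ {z | ∀ k, z k ≠ 0} ∧
      (∀ z : κ → ℂ, (∀ k, z k ≠ 0) → ‖ψ z‖ ≤ M) ∧
      ∀ z : κ → ℂ, (∀ k, z k ≠ 0) → ‖φ z - ψ z‖ ≤ ε * gg l' z := by
  obtain ⟨R, hR1, hR2⟩ := growth_out (κ := κ) hl hll hC hε
  have hR0 : 0 < R := by linarith
  set R' : ℝ := 2 * Fintype.card κ * R + 1 with hR'
  have hcard : (0:ℝ) ≤ Fintype.card κ := Nat.cast_nonneg _
  have hR'1 : 1 ≤ R' := by
    have : 0 ≤ 2 * (Fintype.card κ : ℝ) * R := by positivity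
    linarith
  have hR'0 : 0 < R' := by linarith
  set χ : (κ → ℂ) → ℝ := fun z => min 1 (max 0 (2 - gg 1 z / R')) with hχ
  have hχ0 : ∀ z, 0 ≤ χ z := fun z => le_min zero_le_one (le_max_left _ _)
  have hχ1 : ∀ z, χ z ≤ 1 := fun z => min_le_left _ _
  have hχc : ContinuousOn χ {z | ∀ k, z k ≠ 0} := by
    have h1 : Continuous fun u : ℝ => min 1 (max 0 u) := by fun_prop
    exact h1.comp_continuousOn (continuousOn_const.sub ((cont_gg 1).div_const _))
  refine ⟨fun z => (χ z : ℂ) * φ z, C * (1 + Fintype.card κ * (2 * (2 * R') ^ l)), by positivity,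
    (Complex.continuous_ofReal.comp_continuousOn hχc).mul hφ, ?_, ?_⟩
  · intro z hz
    have hzp : ∀ k, 0 < ‖z k‖ := fun k => norm_pos_iff.mpr (hz k)
    rw [norm_mul, Complex.norm_real, Real.norm_of_nonneg (hχ0 z)]
    by_cases h : 2 * R' ≤ gg 1 z
    · have h1 : χ z = 0 := by
        have h2 : 2 ≤ gg 1 z / R' := by
          rw [le_div_iff₀ hR'0]
          exact h
        simp only [hχ]
        rw [max_eq_left (by linarith)]
        exact min_eq_right zero_le_one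
      rw [h1, zero_mul]
      positivity
    · have h' : gg 1 z < 2 * R' := not_le.mp h
      have hk : ∀ k, ‖z k‖ ≤ 2 * R' ∧ (2 * R')⁻¹ ≤ ‖z k‖ := by
        intro k
        have h1 : ‖z k‖ ^ (1:ℝ) + ‖z k‖ ^ (-(1:ℝ)) ≤ gg 1 z := by
          unfold gg
          exact Finset.single_le_sum (f := fun k => ‖z k‖ ^ (1:ℝ) + ‖z k‖ ^ (-(1:ℝ)))
            (fun k _ => by positivity) (Finset.mem_univ k)
        have h2 : 0 < ‖z k‖ ^ (1:ℝ) := Real.rpow_pos_of_pos (hzp k) _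
        have h3 : 0 < ‖z k‖ ^ (-(1:ℝ)) := Real.rpow_pos_of_pos (hzp k) _
        have h4 : ‖z k‖ ^ (1:ℝ) = ‖z k‖ := Real.rpow_one _
        have h5 : ‖z k‖ ^ (-(1:ℝ)) = ‖z k‖⁻¹ := Real.rpow_neg_one _
        rw [h4, h5] at h1
        rw [h4] at h2
        rw [h5] at h3
        constructor
        · linarith
        · rw [inv_le_comm₀ (by positivity) (hzp k)]
          linarith
      have h1 : gg l z ≤ Fintype.card κ * (2 * (2 * R') ^ l) := by
        have h2 : gg l z ≤ ∑ _k : κ, (2 * (2 * R') ^ l) := by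
          unfold gg
          apply Finset.sum_le_sum
          intro k _
          have e1 := rpow_le_abs (s := l) (by positivity : 0 < 2 * R') (hk k).2 (hk k).1
          have e2 := rpow_le_abs (s := -l) (by positivity : 0 < 2 * R') (hk k).2 (hk k).1
          rw [abs_neg] at e2
          rw [abs_of_nonneg hl] at e1 e2
          linarith
        rw [Finset.sum_const, Finset.card_univ, nsmul_eq_mul] at h2
        exact h2
      calc χ z * ‖φ z‖ ≤ 1 * ‖φ z‖ := mul_le_mul_of_nonneg_right (hχ1 z) (norm_nonneg _)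
        _ = ‖φ z‖ := one_mul _
        _ ≤ C * (1 + gg l z) := hgr z hz
        _ ≤ _ := by
            apply mul_le_mul_of_nonneg_left _ hC
            linarith
  · intro z hz
    have hzp : ∀ k, 0 < ‖z k‖ := fun k => norm_pos_iff.mpr (hz k)
    have e : φ z - (χ z : ℂ) * φ z = ((1 - χ z : ℝ) : ℂ) * φ z := by
      push_cast
      ring
    simp only [e]
    rw [norm_mul, Complex.norm_real, Real.norm_of_nonneg (by linarith [hχ1 z])]
    by_cases h : gg 1 z ≤ R'
    · have h1 : χ z = 1 := by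
        have h2 : gg 1 z / R' ≤ 1 := by
          rw [div_le_one hR'0]
          exact h
        simp only [hχ]
        rw [max_eq_right (by linarith)]
        exact min_eq_left (by linarith)
      rw [h1, sub_self, zero_mul]
      exact mul_nonneg hε.le (gg_nonneg _ _)
    · have h' : R' < gg 1 z := not_le.mp h
      have hk : ∃ k, R < max ‖z k‖ ‖z k‖⁻¹ := by
        by_contra hcon
        push Not at hcon
        have h2 : gg 1 z ≤ ∑ _k : κ, (2 * R) := by
          unfold gg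
          apply Finset.sum_le_sum
          intro k _
          have h4 : ‖z k‖ ^ (1:ℝ) = ‖z k‖ := Real.rpow_one _
          have h5 : ‖z k‖ ^ (-(1:ℝ)) = ‖z k‖⁻¹ := Real.rpow_neg_one _
          rw [h4, h5]
          have h6 := (le_max_left _ _).trans (hcon k)
          have h7 := (le_max_right _ _).trans (hcon k)
          linarith
        rw [Finset.sum_const, Finset.card_univ, nsmul_eq_mul] at h2
        have : (Fintype.card κ : ℝ) * (2 * R) = 2 * Fintype.card κ * R := by ring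
        linarith
      calc (1 - χ z) * ‖φ z‖ ≤ 1 * ‖φ z‖ :=
            mul_le_mul_of_nonneg_right (by linarith [hχ0 z]) (norm_nonneg _)
        _ = ‖φ z‖ := one_mul _
        _ ≤ C * (1 + gg l z) := hgr z hz
        _ ≤ ε * gg l' z := hR2 z hz hk

lemma cube_finite (d : Type*) [Fintype d] : volume (cube d) < ⊤ := by
  have h1 : cube d = Set.pi Set.univ fun _ : d => Set.Ioc (0:ℝ) 1 := by
    ext x
    simp [cube]
  rw [h1, Real.volume_pi_Ioc]
  simp

lemma cube_meas (d : Type*) [Fintype d] : MeasurableSet (cube d) := by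
  have h1 : cube d = Set.pi Set.univ fun _ : d => Set.Ioc (0:ℝ) 1 := by
    ext x
    simp [cube]
  rw [h1]
  exact MeasurableSet.univ_pi fun _ => measurableSet_Ioc

lemma cont_mk (d : Type*) : Continuous fun x : d → ℝ => ((fun i => (x i : UnitAddCircle)) : UnitAddTorus d) := by
  apply continuous_pi
  intro i
  exact (AddCircle.continuous_mk' 1).comp (continuous_apply i)

/-- a continuous function on the torus is integrable over the cube -/
lemma int_cube {E : Type*} [NormedAddCommGroup E] {d : Type*} [Fintype d] {F : UnitAddTorus d → E}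
    (hF : Continuous F) :
    IntegrableOn (fun x : d → ℝ => F (fun i => (x i : UnitAddCircle))) (cube d) := by
  obtain ⟨M, hM⟩ := (isCompact_univ (X := UnitAddTorus d)).exists_bound_of_continuousOn
    (f := F) hF.continuousOn
  apply Measure.integrableOn_of_bounded (M := M) (cube_finite d).ne
  · exact (hF.comp (cont_mk d)).aestronglyMeasurable
  · exact Eventually.of_forall fun x => hM _ (Set.mem_univ _)

variable {N i b : κ → ℕ} {P : κ → ℕ → Polynomial ℂ}

/-- the points where all values are between `T^(-c)` and `T^c` -/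
def GT (ℓ : κ → ℝ → ℂ) (c T : ℝ) : Set ℝ := {t | ∀ k, T ^ (-c) ≤ ‖ℓ k t‖ ∧ ‖ℓ k t‖ ≤ T ^ c}

lemma GT_meas (H : ∀ k, Hyp (N k) (i k) (b k) (P k)) {ℓ : κ → ℝ → ℂ}
    (hℓ : ∀ k, EV (N k) (i k) (P k) (ℓ k)) (c T : ℝ) : NullMeasurableSet (GT ℓ c T) volume := by
  have h1 : GT ℓ c T = ⋂ k, ({t | T ^ (-c) ≤ ‖ℓ k t‖} ∩ {t | ‖ℓ k t‖ ≤ T ^ c}) := by
    ext t
    simp [GT]
  rw [h1]
  apply NullMeasurableSet.iInter
  intro k
  have h2 : AEMeasurable (fun t => ‖ℓ k t‖) volume := ((hℓ k).meas (H k)).norm.aemeasurable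
  exact (nullMeasurableSet_le aemeasurable_const h2).inter (nullMeasurableSet_le h2 aemeasurable_const)

/-- the complement of `GT` in a window is small -/
lemma GT_compl (H : ∀ k, Hyp (N k) (i k) (b k) (P k)) {ℓ : κ → ℝ → ℂ}
    (hℓ : ∀ k, EV (N k) (i k) (P k) (ℓ k)) {c : ℝ} (hc : 0 < c) :
    ∃ T0 : ℝ, 3 ≤ T0 ∧ ∀ T : ℝ, T0 ≤ T → ∀ a : ℝ,
      (volume (Set.Icc a (a + T) \ GT ℓ c T)).toReal ≤ Fintype.card κ * T ^ (1/2 : ℝ) := by
  obtain ⟨C4, hC4, h4⟩ := Pool.Agent.H86.EDGE.item4 N i b P H ℓ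
    (fun k => (hℓ k).mono fun t ht => ht.2.1) (∑ k, b k)
  have hbk : ∀ k, b k ≤ ∑ k, b k := fun k =>
    Finset.single_le_sum (f := b) (fun _ _ => Nat.zero_le _) (Finset.mem_univ k)
  have e1 : ∀ᶠ T : ℝ in atTop, Real.log T ^ C4 ≤ T ^ (1/2 : ℝ) := by
    have h := (isLittleO_log_rpow_rpow_atTop C4 (show (0:ℝ) < 1/2 by norm_num)).bound one_pos
    filter_upwards [h, eventually_ge_atTop 3] with T hT hT3
    have h5 : 0 ≤ Real.log T := Real.log_nonneg (by linarith)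
    rw [one_mul, Real.norm_of_nonneg (by positivity), Real.norm_of_nonneg (by positivity)] at hT
    exact hT
  have e2 : ∀ᶠ T : ℝ in atTop, Real.log T ^ (((∑ k, b k : ℕ) : ℝ)) ≤ T ^ c := by
    have h := (isLittleO_log_rpow_rpow_atTop (((∑ k, b k : ℕ) : ℝ)) hc).bound one_pos
    filter_upwards [h, eventually_ge_atTop 3] with T hT hT3
    have h5 : 0 ≤ Real.log T := Real.log_nonneg (by linarith)
    rw [one_mul, Real.norm_of_nonneg (by positivity), Real.norm_of_nonneg (by positivity)] at hT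
    exact hT
  obtain ⟨T1, hT1⟩ := eventually_atTop.mp (e1.and e2)
  refine ⟨max (max C4 T1) 3, le_max_right _ _, ?_⟩
  intro T hT a
  have hTC : C4 ≤ T := (le_max_left _ _).trans ((le_max_left _ _).trans hT)
  have hTT1 : T1 ≤ T := (le_max_right _ _).trans ((le_max_left _ _).trans hT)
  have hT3 : 3 ≤ T := (le_max_right _ _).trans hT
  have hT0 : 0 < T := by linarith
  obtain ⟨f1, f2⟩ := hT1 T hTT1
  have hlog1 : 1 ≤ Real.log T := by
    rw [Real.le_log_iff_exp_le hT0]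
    have := Real.exp_one_lt_d9
    linarith
  have hlog0 : 0 < Real.log T := by linarith
  have hbnd : ∀ k, volume {t | t ∈ Set.Icc a (a + T) ∧
      ¬ (Real.log T ^ (-(b k:ℝ)) ≤ ‖ℓ k t‖ ∧ ‖ℓ k t‖ ≤ Real.log T ^ (b k:ℝ))} ≤
        ENNReal.ofReal (T ^ (1/2 : ℝ)) := by
    intro k
    refine (h4 k (hbk k) T hTC (Real.log T) hlog1 le_rfl a).1.trans ?_
    apply ENNReal.ofReal_le_ofReal
    refine le_trans (le_of_eq ?_) f1
    rw [Real.rpow_def_of_pos hT0, Real.rpow_def_of_pos hlog0]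
    congr 1
    field_simp
  have hsub : Set.Icc a (a + T) \ GT ℓ c T ⊆ ⋃ k, {t | t ∈ Set.Icc a (a + T) ∧
      ¬ (Real.log T ^ (-(b k:ℝ)) ≤ ‖ℓ k t‖ ∧ ‖ℓ k t‖ ≤ Real.log T ^ (b k:ℝ))} := by
    rintro t ⟨ht1, ht2⟩
    simp only [GT, Set.mem_ofPred_eq, not_forall] at ht2
    obtain ⟨k, hk⟩ := ht2
    rw [Set.mem_iUnion]
    refine ⟨k, ht1, ?_⟩
    intro h5
    apply hk
    have h6 : Real.log T ^ (b k:ℝ) ≤ T ^ c := by
      refine (Real.rpow_le_rpow_of_exponent_le hlog1 ?_).trans f2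
      exact_mod_cast hbk k
    have h7 : T ^ (-c) ≤ Real.log T ^ (-(b k:ℝ)) := by
      rw [Real.rpow_neg hT0.le, Real.rpow_neg hlog0.le]
      exact inv_anti₀ (by positivity) h6
    exact ⟨h7.trans h5.1, h5.2.trans h6⟩
  have hvol : volume (Set.Icc a (a + T) \ GT ℓ c T) ≤
      ENNReal.ofReal (Fintype.card κ * T ^ (1/2 : ℝ)) := by
    calc _ ≤ _ := measure_mono hsub
      _ ≤ ∑ k, volume {t | t ∈ Set.Icc a (a + T) ∧
            ¬ (Real.log T ^ (-(b k:ℝ)) ≤ ‖ℓ k t‖ ∧ ‖ℓ k t‖ ≤ Real.log T ^ (b k:ℝ))} :=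
          measure_iUnion_fintype_le _ _
      _ ≤ ∑ _k : κ, ENNReal.ofReal (T ^ (1/2 : ℝ)) := Finset.sum_le_sum fun k _ => hbnd k
      _ = ENNReal.ofReal (Fintype.card κ * T ^ (1/2 : ℝ)) := by
          rw [Finset.sum_const, Finset.card_univ, nsmul_eq_mul,
            ENNReal.ofReal_mul (Nat.cast_nonneg _), ENNReal.ofReal_natCast]
  exact ENNReal.toReal_le_of_le_ofReal (by positivity) hvol

/-- the law -/
theorem law (H : ∀ k, Hyp (N k) (i k) (b k) (P k)) {ℓ : κ → ℝ → ℂ}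
    (hℓ : ∀ k, EV (N k) (i k) (P k) (ℓ k)) {φ : (κ → ℂ) → ℂ} {l C : ℝ} (hl : 0 ≤ l) (hC : 0 ≤ C)
    (hφ : ContinuousOn φ {z | ∀ k, z k ≠ 0})
    (hgr : ∀ z : κ → ℂ, (∀ k, z k ≠ 0) → ‖φ z‖ ≤ C * (1 + gg l z)) {m : ℂ}
    (hm : Tendsto (fun y : ℕ => ∫ θ in cube (Nat.primesBelow (y + 1)),
        φ (fun k => ∏ p : Nat.primesBelow (y + 1), if (p:ℕ) ∣ N k then 1 else
          ((P k p).eval (cexp (2 * Real.pi * θ p * I) *
            ((p:ℕ):ℂ) ^ (-(1 + (i k:ℂ)/2))))⁻¹)) atTop (𝓝 m))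
    {c : ℝ} (hc : 0 < c) (hcl : c * l < 1) {ε : ℝ} (hε : 0 < ε) :
    ∃ T0 : ℝ, 0 < T0 ∧ ∀ T : ℝ, T0 ≤ T → ∀ a : ℝ,
      IntegrableOn (fun t => φ (fun k => ℓ k t)) (Set.Icc a (a + T) ∩ GT ℓ c T) ∧
      ‖(∫ t in Set.Icc a (a + T) ∩ GT ℓ c T, φ (fun k => ℓ k t)) / T - m‖ ≤ ε := by
  -- the exponent
  obtain ⟨l', hll, hl'0, hcl'⟩ : ∃ l' : ℝ, l < l' ∧ 0 < l' ∧ c * l' < 1 := by
    refine ⟨(l + 1 / c) / 2, ?_, ?_, ?_⟩
    · have : l < 1 / c := by
        rw [lt_div_iff₀ hc]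
        linarith
      linarith
    · have : 0 < 1 / c := by positivity
      linarith
    · have h1 : c * ((l + 1 / c) / 2) = (c * l + 1) / 2 := by field_simp
      rw [h1]
      linarith
  have hs1 : c * |l'| < 1 := by rw [abs_of_pos hl'0]; exact hcl'
  have hs2 : c * |-l'| < 1 := by rw [abs_neg]; exact hs1
  -- moments over windows
  have h1 : ∀ k, ∃ K T0 : ℝ, 0 ≤ K ∧ 3 ≤ T0 ∧ ∀ T : ℝ, T0 ≤ T → ∀ a : ℝ, ∀ S : Set ℝ,
      NullMeasurableSet S volume → S ⊆ Set.Icc a (a + T) →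
      (∀ t ∈ S, T ^ (-c) ≤ ‖ℓ k t‖ ∧ ‖ℓ k t‖ ≤ T ^ c) →
        IntegrableOn (fun t => ‖ℓ k t‖ ^ l' + ‖ℓ k t‖ ^ (-l')) S ∧
        ∫ t in S, (‖ℓ k t‖ ^ l' + ‖ℓ k t‖ ^ (-l')) ≤ K * T := by
    intro k
    obtain ⟨K1, T1, hK1, hT1, g1⟩ := trunc_moment (b k) hs1
    obtain ⟨K2, T2, hK2, hT2, g2⟩ := trunc_moment (b k) hs2
    refine ⟨K1 + K2, max T1 T2, by positivity, hT1.trans (le_max_left _ _), ?_⟩
    intro T hT a S hS hSI hSb
    obtain ⟨u1, u2⟩ := g1 (N k) (i k) (P k) (H k) (ℓ k) (hℓ k) T ((le_max_left _ _).trans hT) a S hS hSI hSb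
    obtain ⟨v1, v2⟩ := g2 (N k) (i k) (P k) (H k) (ℓ k) (hℓ k) T ((le_max_right _ _).trans hT) a S hS hSI hSb
    refine ⟨u1.add v1, ?_⟩
    rw [integral_add u1 v1]
    linarith
  choose K Tk hK hTk h1 using h1
  -- moments on the torus
  have h2 : ∀ k, ∃ D : ℝ, 0 ≤ D ∧ ∀ y : ℕ, ∫ x in cube (Nat.primesBelow (y + 1)),
      (‖Psi (N k) (i k) (P k) y (fun p => (x p : UnitAddCircle))‖ ^ l' +
        ‖Psi (N k) (i k) (P k) y (fun p => (x p : UnitAddCircle))‖ ^ (-l')) ≤ D := by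
    intro k
    obtain ⟨D1, hD1, g1⟩ := torus_moment (H k) l'
    obtain ⟨D2, hD2, g2⟩ := torus_moment (H k) (-l')
    refine ⟨D1 + D2, by positivity, fun y => ?_⟩
    rw [integral_add]
    · exact add_le_add (g1 y) (g2 y)
    · exact int_cube (cont_norm_rpow (continuous_Psi (H k) y) (Psi_ne (H k) y) l')
    · exact int_cube (cont_norm_rpow (continuous_Psi (H k) y) (Psi_ne (H k) y) (-l'))
  choose D hD h2 using h2
  have hKs : 0 ≤ ∑ k, K k := Finset.sum_nonneg fun k _ => hK k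
  have hDs : 0 ≤ ∑ k, D k := Finset.sum_nonneg fun k _ => hD k
  set W : ℝ := ∑ k, K k + ∑ k, D k + 1 with hW
  have hW0 : 0 < W := by linarith
  set ε1 : ℝ := ε / (4 * W) with hε1
  have hε1p : 0 < ε1 := by positivity
  have hε1K : ε1 * ∑ k, K k ≤ ε / 4 := by
    rw [hε1, div_mul_eq_mul_div, div_le_div_iff₀ (by positivity) (by norm_num)]
    nlinarith
  have hε1D : ε1 * ∑ k, D k ≤ ε / 4 := by
    rw [hε1, div_mul_eq_mul_div, div_le_div_iff₀ (by positivity) (by norm_num)]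
    nlinarith
  obtain ⟨ψ, M, hM, hψc, hψM, hψd⟩ := cutoff hl hll hC hφ hgr hε1p
  have hψgr : ∀ z : κ → ℂ, (∀ k, z k ≠ 0) → ‖ψ z‖ ≤ M * (1 + gg 0 z) := by
    intro z hz
    have := gg_nonneg 0 z
    refine (hψM z hz).trans ?_
    nlinarith
  obtain ⟨hii, m', hwin, htor⟩ := distribution H hℓ (l := 0) le_rfl hM (by simp) hψc hψgr
  -- the two limits are close
  have hmm : ‖m' - m‖ ≤ ε / 4 := by
    refine le_of_tendsto ((htor.sub hm).norm) (Eventually.of_forall fun y => ?_)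
    have c1 : Continuous fun x : UnitAddTorus (Nat.primesBelow (y + 1)) =>
        ψ (fun k => Psi (N k) (i k) (P k) y x) := continuous_phi_Psi H hψc y
    have c2 : Continuous fun x : UnitAddTorus (Nat.primesBelow (y + 1)) =>
        φ (fun k => Psi (N k) (i k) (P k) y x) := continuous_phi_Psi H hφ y
    simp only [← Psi_mk]
    rw [← integral_sub (int_cube c1) (int_cube c2)]
    have i3 : ∀ k, IntegrableOn (fun x : Nat.primesBelow (y + 1) → ℝ =>
        (‖Psi (N k) (i k) (P k) y (fun p => (x p : UnitAddCircle))‖ ^ l' +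
        ‖Psi (N k) (i k) (P k) y (fun p => (x p : UnitAddCircle))‖ ^ (-l')))
        (cube (Nat.primesBelow (y + 1))) := fun k =>
      (int_cube (cont_norm_rpow (continuous_Psi (H k) y) (Psi_ne (H k) y) l')).add
        (int_cube (cont_norm_rpow (continuous_Psi (H k) y) (Psi_ne (H k) y) (-l')))
    have i4 : IntegrableOn (fun x : Nat.primesBelow (y + 1) → ℝ =>
        ε1 * gg l' (fun k => Psi (N k) (i k) (P k) y (fun p => (x p : UnitAddCircle))))
        (cube (Nat.primesBelow (y + 1))) := by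
      unfold gg
      exact (integrable_finsetSum _ fun k _ => i3 k).const_mul ε1
    calc ‖∫ x in cube (Nat.primesBelow (y + 1)),
          (ψ (fun k => Psi (N k) (i k) (P k) y (fun p => (x p : UnitAddCircle))) -
            φ (fun k => Psi (N k) (i k) (P k) y (fun p => (x p : UnitAddCircle))))‖ ≤
        ∫ x in cube (Nat.primesBelow (y + 1)),
          ε1 * gg l' (fun k => Psi (N k) (i k) (P k) y (fun p => (x p : UnitAddCircle))) := by
          apply norm_integral_le_of_norm_le i4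
          filter_upwards with x
          rw [norm_sub_rev]
          exact hψd _ fun k => Psi_ne (H k) y _
      _ = ε1 * ∑ k, ∫ x in cube (Nat.primesBelow (y + 1)),
          (‖Psi (N k) (i k) (P k) y (fun p => (x p : UnitAddCircle))‖ ^ l' +
          ‖Psi (N k) (i k) (P k) y (fun p => (x p : UnitAddCircle))‖ ^ (-l')) := by
          unfold gg
          rw [integral_const_mul, integral_finsetSum _ fun k _ => i3 k]
      _ ≤ ε1 * ∑ k, D k := by
          apply mul_le_mul_of_nonneg_left _ hε1p.le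
          exact Finset.sum_le_sum fun k _ => h2 k y
      _ ≤ ε / 4 := hε1D
  -- choice of T0
  obtain ⟨T1, hT1, g1⟩ := hwin (ε / 4) (by linarith)
  obtain ⟨T2, hT2, g2⟩ := GT_compl H hℓ hc
  have e3 : ∀ᶠ T : ℝ in atTop, M * (Fintype.card κ * T ^ (-(1/2) : ℝ)) ≤ ε / 4 := by
    have h3 : Tendsto (fun T : ℝ => M * (Fintype.card κ * T ^ (-(1/2) : ℝ))) atTop
        (𝓝 (M * (Fintype.card κ * 0))) :=
      ((tendsto_rpow_neg_atTop (show (0:ℝ) < 1/2 by norm_num)).const_mul _).const_mul _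
    rw [mul_zero, mul_zero] at h3
    exact h3.eventually (ge_mem_nhds (by linarith))
  obtain ⟨T3, hT3⟩ := eventually_atTop.mp e3
  set T4 : ℝ := ∑ k, Tk k with hT4
  have hTk4 : ∀ k, Tk k ≤ T4 := fun k =>
    Finset.single_le_sum (f := Tk) (fun k _ => by linarith [hTk k]) (Finset.mem_univ k)
  refine ⟨max (max T1 T2) (max T3 T4), lt_max_of_lt_left (lt_max_of_lt_left hT1), ?_⟩
  intro T hT a
  have k1 : T1 ≤ T := (le_max_left _ _).trans ((le_max_left _ _).trans hT)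
  have k2 : T2 ≤ T := (le_max_right _ _).trans ((le_max_left _ _).trans hT)
  have k3 : T3 ≤ T := (le_max_left _ _).trans ((le_max_right _ _).trans hT)
  have k4 : T4 ≤ T := (le_max_right _ _).trans ((le_max_right _ _).trans hT)
  have hT0 : 0 < T := by linarith
  set S : Set ℝ := Set.Icc a (a + T) ∩ GT ℓ c T with hS
  have hGm := GT_meas H hℓ c T
  have hSm : NullMeasurableSet S volume := measurableSet_Icc.nullMeasurableSet.inter hGm
  have hSI : S ⊆ Set.Icc a (a + T) := Set.inter_subset_left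
  have hSb : ∀ k, ∀ t ∈ S, T ^ (-c) ≤ ‖ℓ k t‖ ∧ ‖ℓ k t‖ ≤ T ^ c := fun k t ht => ht.2 k
  have hne : ∀ᵐ t, ∀ k, ℓ k t ≠ 0 := by
    rw [ae_all_iff]
    intro k
    exact (hℓ k).mono fun t ht => ht.1
  have mφ : AEStronglyMeasurable (fun t => φ (fun k => ℓ k t)) volume :=
    meas_phi hφ (fun k => (hℓ k).meas (H k)) hne
  have mψ : AEStronglyMeasurable (fun t => ψ (fun k => ℓ k t)) volume :=
    meas_phi hψc (fun k => (hℓ k).meas (H k)) hne
  have hψI : IntegrableOn (fun t => ψ (fun k => ℓ k t)) (Set.Icc a (a + T)) := by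
    rw [integrableOn_Icc_iff_integrableOn_Ioc]
    exact (intervalIntegrable_iff_integrableOn_Ioc_of_le (by linarith)).mp (hii a (a + T))
  have hgk : ∀ k, IntegrableOn (fun t => ‖ℓ k t‖ ^ l' + ‖ℓ k t‖ ^ (-l')) S ∧
      ∫ t in S, (‖ℓ k t‖ ^ l' + ‖ℓ k t‖ ^ (-l')) ≤ K k * T := fun k =>
    h1 k T ((hTk4 k).trans k4) a S hSm hSI (hSb k)
  have hgI : IntegrableOn (fun t => ε1 * gg l' (fun k => ℓ k t)) S := by
    unfold gg
    exact (integrable_finsetSum _ fun k _ => (hgk k).1).const_mul ε1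
  have hgv : ∫ t in S, ε1 * gg l' (fun k => ℓ k t) ≤ ε / 4 * T := by
    have h5 : ∫ t in S, ε1 * gg l' (fun k => ℓ k t) =
        ε1 * ∑ k, ∫ t in S, (‖ℓ k t‖ ^ l' + ‖ℓ k t‖ ^ (-l')) := by
      unfold gg
      rw [integral_const_mul, integral_finsetSum _ fun k _ => (hgk k).1]
    rw [h5]
    calc ε1 * ∑ k, ∫ t in S, (‖ℓ k t‖ ^ l' + ‖ℓ k t‖ ^ (-l')) ≤ ε1 * ∑ k, K k * T := by
          apply mul_le_mul_of_nonneg_left _ hε1p.le
          exact Finset.sum_le_sum fun k _ => (hgk k).2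
      _ = (ε1 * ∑ k, K k) * T := by rw [← Finset.sum_mul]; ring
      _ ≤ ε / 4 * T := mul_le_mul_of_nonneg_right hε1K hT0.le
  have hdae : ∀ᵐ t ∂(volume.restrict S), ‖φ (fun k => ℓ k t) - ψ (fun k => ℓ k t)‖ ≤
      ε1 * gg l' (fun k => ℓ k t) := by
    apply ae_restrict_of_ae
    filter_upwards [hne] with t ht
    exact hψd _ ht
  have hdI : IntegrableOn (fun t => φ (fun k => ℓ k t) - ψ (fun k => ℓ k t)) S :=
    Integrable.mono' hgI (mφ.sub mψ).restrict hdae
  have hψS : IntegrableOn (fun t => ψ (fun k => ℓ k t)) S := hψI.mono_set hSI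
  have hφS : IntegrableOn (fun t => φ (fun k => ℓ k t)) S := by
    have h5 := hdI.add hψS
    refine h5.congr ?_
    filter_upwards with t
    simp
  refine ⟨hφS, ?_⟩
  have hd : ‖∫ t in S, (φ (fun k => ℓ k t) - ψ (fun k => ℓ k t))‖ ≤ ε / 4 * T :=
    (norm_integral_le_of_norm_le hgI hdae).trans hgv
  have hsplit := integral_inter_add_sdiff₀ hGm hψI
  have hrest : ‖∫ t in Set.Icc a (a + T) \ GT ℓ c T, ψ (fun k => ℓ k t)‖ ≤ ε / 4 * T := by
    have h5 : ‖∫ t in Set.Icc a (a + T) \ GT ℓ c T, ψ (fun k => ℓ k t)‖ ≤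
        M * (volume.real (Set.Icc a (a + T) \ GT ℓ c T)) := by
      apply norm_setIntegral_le_of_norm_le_const_ae
      · exact (measure_mono Set.sdiff_subset).trans_lt (by simp [Real.volume_Icc])
      · filter_upwards [ae_restrict_of_ae hne] with t ht
        exact hψM _ ht
    refine h5.trans ?_
    calc M * (volume.real (Set.Icc a (a + T) \ GT ℓ c T)) ≤
          M * (Fintype.card κ * T ^ (1/2 : ℝ)) := mul_le_mul_of_nonneg_left (g2 T k2 a) hM
      _ = (M * (Fintype.card κ * T ^ (-(1/2) : ℝ))) * T := by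
          have h6 : T ^ (1/2 : ℝ) = T ^ (-(1/2) : ℝ) * T := by
            nth_rewrite 3 [← Real.rpow_one T]
            rw [← Real.rpow_add hT0]
            norm_num
          rw [h6]
          ring
      _ ≤ ε / 4 * T := mul_le_mul_of_nonneg_right (hT3 T k3) hT0.le
  have hw := g1 T k1 a
  have hwI : ∫ t in a..(a + T), ψ (fun k => ℓ k t) = ∫ t in Set.Icc a (a + T), ψ (fun k => ℓ k t) := by
    rw [intervalIntegral.integral_of_le (by linarith), integral_Icc_eq_integral_Ioc]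
  rw [hwI] at hw
  have hTc : (T:ℂ) ≠ 0 := by exact_mod_cast hT0.ne'
  have hfin : (∫ t in S, φ (fun k => ℓ k t)) / T - m =
      (∫ t in S, (φ (fun k => ℓ k t) - ψ (fun k => ℓ k t))) / T -
      (∫ t in Set.Icc a (a + T) \ GT ℓ c T, ψ (fun k => ℓ k t)) / T +
      ((∫ t in Set.Icc a (a + T), ψ (fun k => ℓ k t)) / T - m') + (m' - m) := by
    rw [integral_sub hφS hψS, ← hsplit]
    ring
  rw [hfin]
  have q1 : ‖(∫ t in S, (φ (fun k => ℓ k t) - ψ (fun k => ℓ k t))) / (T:ℂ)‖ ≤ ε / 4 := by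
    rw [norm_div, Complex.norm_real, Real.norm_of_nonneg hT0.le, div_le_iff₀ hT0]
    exact hd
  have q2 : ‖(∫ t in Set.Icc a (a + T) \ GT ℓ c T, ψ (fun k => ℓ k t)) / (T:ℂ)‖ ≤ ε / 4 := by
    rw [norm_div, Complex.norm_real, Real.norm_of_nonneg hT0.le, div_le_iff₀ hT0]
    exact hrest
  calc _ ≤ ‖(∫ t in S, (φ (fun k => ℓ k t) - ψ (fun k => ℓ k t))) / (T:ℂ)‖ +
        ‖(∫ t in Set.Icc a (a + T) \ GT ℓ c T, ψ (fun k => ℓ k t)) / (T:ℂ)‖ +
        ‖(∫ t in Set.Icc a (a + T), ψ (fun k => ℓ k t)) / (T:ℂ) - m'‖ + ‖m' - m‖ := by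
        refine (norm_add_le _ _).trans ?_
        gcongr
        refine (norm_add_le _ _).trans ?_
        gcongr
        exact norm_sub_le _ _
    _ ≤ ε := by linarith

end Pool.Agent.H91.GR
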