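import Mathlib
import Pool.Agent.H5.EBJ.Candidate
import Pool.Agent.H48.ER.Rate
import Pool.Agent.H91.Edge.MomEdge
import Pool.Agent.H91.GR.Law
import Pool.Agent.H81.GR.Law2
import Pool.Agent.H81.GR.Dbl

/-!
Assembly of the statement on the behaviour on the edge, second form.
-/

open Complex Filter Topology MeasureTheory

namespace Pool.Agent.H91.GR

open Pool.Agent.H91.Edge
open Pool.Agent.H89.EdgeBasic (Hyp)
open Pool.Agent.H5.EBJ (RateP)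

/-- the bound for the values, in the height and in the modulus aspect, with one constant -/
theorem bounds {κ : Type} (N i b : κ → ℕ) (P : κ → ℕ → Polynomial ℂ)
    (H : ∀ k, Hyp (N k) (i k) (b k) (P k)) {E : κ → ℝ → ℂ}
    (hE : ∀ k, EV (N k) (i k) (P k) (E k)) (β : ℕ) :
    ∃ C : ℝ, 1 ≤ C ∧ ∀ (k : κ) (V : ℝ), b k ≤ β → 1 ≤ V →
      (∀ T : ℝ, C ≤ T → V ≤ Real.log T → ∀ a : ℝ,
        volume {t | t ∈ Set.Icc a (a + T) ∧ ¬ ((V ^ b k)⁻¹ ≤ ‖E k t‖ ∧ ‖E k t‖ ≤ V ^ b k)} ≤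
          ENNReal.ofReal (T ^ (C * Real.log (Real.log T) / V)) ∧
        (V ≤ Real.log (Real.log T) →
          volume {t | t ∈ Set.Icc a (a + T) ∧ ¬ ((V ^ b k)⁻¹ ≤ ‖E k t‖ ∧ ‖E k t‖ ≤ V ^ b k)} ≤
            ENNReal.ofReal (C * T * Real.exp (-Real.exp (V / C))))) ∧
      ∀ (q : ℕ) [NeZero q], C ≤ q → V ≤ Real.log q → ∀ h t : ℝ, 1 / (q:ℝ) ≤ h →
        (({ψ : DirichletCharacter ℂ q | ¬ ((V ^ b k)⁻¹ ≤
            ‖∏' p : {p : ℕ // p.Prime ∧ ¬ p ∣ N k}, ((P k p).eval (ψ (p : ℕ) *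
              ((p : ℕ) : ℂ) ^ (-(1 + (i k:ℂ)/2 + h + t * I))))⁻¹‖ ∧
            ‖∏' p : {p : ℕ // p.Prime ∧ ¬ p ∣ N k}, ((P k p).eval (ψ (p : ℕ) *
              ((p : ℕ) : ℂ) ^ (-(1 + (i k:ℂ)/2 + h + t * I))))⁻¹‖ ≤ V ^ b k)}.ncard : ℝ) ≤
          (q:ℝ) ^ (C * Real.log (Real.log q) / V)) ∧
        (V ≤ Real.log (Real.log q) →
          ({ψ : DirichletCharacter ℂ q | ¬ ((V ^ b k)⁻¹ ≤
            ‖∏' p : {p : ℕ // p.Prime ∧ ¬ p ∣ N k}, ((P k p).eval (ψ (p : ℕ) *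
              ((p : ℕ) : ℂ) ^ (-(1 + (i k:ℂ)/2 + h + t * I))))⁻¹‖ ∧
            ‖∏' p : {p : ℕ // p.Prime ∧ ¬ p ∣ N k}, ((P k p).eval (ψ (p : ℕ) *
              ((p : ℕ) : ℂ) ^ (-(1 + (i k:ℂ)/2 + h + t * I))))⁻¹‖ ≤ V ^ b k)}.ncard : ℝ) ≤
            C * q.totient * Real.exp (-Real.exp (V / C))) := by
  classical
  obtain ⟨C1, hC1, h1⟩ := Pool.Agent.H86.EDGE.item4 N i b P H E
    (fun k => (hE k).mono fun t ht => ht.2.1) β
  obtain ⟨C2, hC2, h2⟩ := Pool.Agent.H81.GR.q_bound' β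
  obtain ⟨C3, hC3, h3⟩ := Pool.Agent.H81.GR.q_bound2 β
  set C : ℝ := max C1 (max C2 C3) with hC
  have c1 : C1 ≤ C := le_max_left _ _
  have c2 : C2 ≤ C := (le_max_left _ _).trans (le_max_right _ _)
  have c3 : C3 ≤ C := (le_max_right _ _).trans (le_max_right _ _)
  have hCpos : 0 < C := by linarith
  have hll : ∀ x : ℝ, 3 ≤ x → 0 ≤ Real.log (Real.log x) := by
    intro x hx
    apply Real.log_nonneg
    rw [Real.le_log_iff_exp_le (by linarith)]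
    have := Real.exp_one_lt_d9
    linarith
  have hmono1 : ∀ x V D : ℝ, 3 ≤ x → 0 < V → D ≤ C →
      x ^ (D * Real.log (Real.log x) / V) ≤ x ^ (C * Real.log (Real.log x) / V) := by
    intro x V D hx hV hD
    apply Real.rpow_le_rpow_of_exponent_le (by linarith)
    apply div_le_div_of_nonneg_right _ hV.le
    exact mul_le_mul_of_nonneg_right hD (hll x hx)
  have hmono2 : ∀ x V D : ℝ, 0 ≤ x → 0 < V → 1 ≤ D → D ≤ C →
      D * x * Real.exp (-Real.exp (V / D)) ≤ C * x * Real.exp (-Real.exp (V / C)) := by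
    intro x V D hx hV hD1 hD
    have e1 : Real.exp (-Real.exp (V / D)) ≤ Real.exp (-Real.exp (V / C)) := by
      rw [Real.exp_le_exp, neg_le_neg_iff, Real.exp_le_exp]
      exact div_le_div_of_nonneg_left hV.le (by linarith) hD
    have e2 : D * x ≤ C * x := mul_le_mul_of_nonneg_right hD hx
    exact mul_le_mul e2 e1 (Real.exp_pos _).le (by positivity)
  have hpow : ∀ (V : ℝ) (n : ℕ), 0 < V → V ^ (-(n:ℝ)) = (V ^ n)⁻¹ ∧ V ^ (n:ℝ) = V ^ n := by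
    intro V n hV
    constructor
    · rw [Real.rpow_neg hV.le, Real.rpow_natCast]
    · rw [Real.rpow_natCast]
  refine ⟨C, by linarith, ?_⟩
  intro k V hk hV
  have hV0 : 0 < V := by linarith
  constructor
  · intro T hT hVT a
    have hT3 : 3 ≤ T := by linarith
    obtain ⟨g1, g2⟩ := h1 k hk T (c1.trans hT) V hV hVT a
    rw [(hpow V (b k) hV0).1, (hpow V (b k) hV0).2] at g1 g2
    refine ⟨g1.trans (ENNReal.ofReal_le_ofReal (hmono1 T V C1 hT3 hV0 c1)), fun hVV => ?_⟩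
    exact (g2 hVV).trans (ENNReal.ofReal_le_ofReal
      (hmono2 T V C1 (by linarith) hV0 (by linarith) c1))
  · intro q _ hq hVq h t hh
    have hq3 : (3:ℝ) ≤ q := by linarith
    have g1 := h2 (N k) (i k) (b k) (P k) (H k) hk q (c2.trans hq) h t V hh hV0 hVq
    have g2 := fun hVV : V ≤ Real.log (Real.log q) =>
      h3 (N k) (i k) (b k) (P k) (H k) hk q (c3.trans hq) h t V hh hV hVV
    have hset : {ψ : DirichletCharacter ℂ q | ¬ ((V ^ b k)⁻¹ ≤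
            ‖∏' p : {p : ℕ // p.Prime ∧ ¬ p ∣ N k}, ((P k p).eval (ψ (p : ℕ) *
              ((p : ℕ) : ℂ) ^ (-(1 + (i k:ℂ)/2 + h + t * I))))⁻¹‖ ∧
            ‖∏' p : {p : ℕ // p.Prime ∧ ¬ p ∣ N k}, ((P k p).eval (ψ (p : ℕ) *
              ((p : ℕ) : ℂ) ^ (-(1 + (i k:ℂ)/2 + h + t * I))))⁻¹‖ ≤ V ^ b k)}.ncard =
        (Finset.univ.filter (fun ψ : DirichletCharacter ℂ q => ¬ ((V ^ b k)⁻¹ ≤
            ‖∏' p : {p : ℕ // p.Prime ∧ ¬ p ∣ N k}, ((P k p).eval (ψ (p : ℕ) *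
              ((p : ℕ) : ℂ) ^ (-(1 + (i k:ℂ)/2 + h + t * I))))⁻¹‖ ∧
            ‖∏' p : {p : ℕ // p.Prime ∧ ¬ p ∣ N k}, ((P k p).eval (ψ (p : ℕ) *
              ((p : ℕ) : ℂ) ^ (-(1 + (i k:ℂ)/2 + h + t * I))))⁻¹‖ ≤ V ^ b k))).card := by
      rw [← Set.ncard_coe_finset]
      congr 1
      ext ψ
      simp
    rw [hset]
    constructor
    · refine le_trans ?_ (hmono1 q V C2 hq3 hV0 c2)
      convert g1 using 3
    · intro hVV
      refine le_trans ?_ (hmono2 q.totient V C3 (Nat.cast_nonneg _) hV0 hC3 c3)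
      convert g2 hVV using 3

theorem behave {κ : Type} [Countable κ] (N i b : κ → ℕ) (P : κ → ℕ → Polynomial ℂ)
    (H : ∀ k, Hyp (N k) (i k) (b k) (P k))
    (HR : ∀ k, ∀ γ : ℝ, 0 ≤ γ → γ < 1/2 → RateP (N k) (i k) (P k) γ) :
    ∃ E : κ → ℝ → ℂ,
      (∀ γ : ℝ, 0 ≤ γ → γ < 1/2 → ∃ Z : Set ℝ, dimH Z ≤ ENNReal.ofReal (2 * γ) ∧
        ∀ t : ℝ, t ∉ Z → ∀ k : κ, E k t ≠ 0 ∧
          Tendsto (fun x : ℕ => ∏ p ∈ (Finset.range (x + 1)).filter (fun p => p.Prime ∧ ¬ p ∣ N k),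
            ((P k p).eval ((p:ℂ) ^ (-(1 + (i k:ℂ)/2 + t * I))))⁻¹) atTop (𝓝 (E k t)) ∧
          (∃ C : ℝ, ∀ x : ℕ, 2 ≤ x →
            ‖(∏ p ∈ (Finset.range (x + 1)).filter (fun p => p.Prime ∧ ¬ p ∣ N k),
              ((P k p).eval ((p:ℂ) ^ (-(1 + (i k:ℂ)/2 + t * I))))⁻¹) - E k t‖ ≤
                C * Real.log x ^ (-γ)) ∧
          ∀ M : ℝ, Tendsto (fun s : ℂ => ∏' p : {p : ℕ // p.Prime ∧ ¬ p ∣ N k},
              ((P k p).eval ((p:ℂ)^(-s)))⁻¹)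
            (𝓝[{s : ℂ | 1 + (i k:ℝ)/2 < s.re ∧ |s.im - t| ≤ M * (s.re - (1 + (i k:ℝ)/2))}]
              (1 + (i k:ℂ)/2 + t * I)) (𝓝 (E k t))) ∧
      (∀ (n : ℕ) (e : Fin n → κ) (φ : (Fin n → ℂ) → ℂ) (l C : ℝ), 0 ≤ l →
        ContinuousOn φ {z | ∀ j, z j ≠ 0} →
        (∀ z : Fin n → ℂ, (∀ j, z j ≠ 0) → ‖φ z‖ ≤ C * (1 + ∑ j, (‖z j‖ ^ l + ‖z j‖ ^ (-l)))) →
        ∃ m : ℂ,
          Tendsto (fun y : ℕ => ∫ θ in {θ : Nat.primesBelow (y + 1) → ℝ | ∀ p, θ p ∈ Set.Ioc (0:ℝ) 1},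
            φ (fun j => ∏ p : Nat.primesBelow (y + 1), if (p:ℕ) ∣ N (e j) then 1 else
              ((P (e j) p).eval (cexp (2 * Real.pi * θ p * I) *
                ((p:ℕ):ℂ) ^ (-(1 + (i (e j):ℂ)/2))))⁻¹)) atTop (𝓝 m) ∧
          (∀ c : ℝ, 0 < c → c * l < 1 → ∀ ε : ℝ, 0 < ε →
            ∃ T0 : ℝ, 0 < T0 ∧ ∀ T : ℝ, T0 ≤ T → ∀ a : ℝ,
              IntegrableOn (fun t => φ (fun j => E (e j) t)) (Set.Icc a (a + T) ∩
                {t | ∀ j, T ^ (-c) ≤ ‖E (e j) t‖ ∧ ‖E (e j) t‖ ≤ T ^ c}) ∧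
              ‖(∫ t in Set.Icc a (a + T) ∩ {t | ∀ j, T ^ (-c) ≤ ‖E (e j) t‖ ∧ ‖E (e j) t‖ ≤ T ^ c},
                φ (fun j => E (e j) t)) / T - m‖ ≤ ε) ∧
          ((∀ j, (b (e j) : ℝ) * l < 1) →
            (∀ a c : ℝ, IntervalIntegrable (fun t => φ (fun j => E (e j) t)) volume a c) ∧
            ∀ ε : ℝ, 0 < ε → ∃ T0 : ℝ, 0 < T0 ∧ ∀ T : ℝ, T0 ≤ T → ∀ a : ℝ,
              ‖(∫ t in a..(a + T), φ (fun j => E (e j) t)) / T - m‖ ≤ ε) ∧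
          ∀ d : ℝ, 0 ≤ d → (∀ j, d * ((b (e j) : ℝ) * l) < 1) → ∀ ε : ℝ, 0 < ε →
            ∃ (Q : ℕ) (δ : ℝ), 0 < δ ∧ ∀ (q : ℕ) [NeZero q], (∀ p : ℕ, p.Prime → p ∣ q → Q ≤ p) →
              ∀ h t : ℝ, (q : ℝ) ^ (-d) ≤ h → h ≤ δ →
                ‖(∑ ψ : DirichletCharacter ℂ q,
                  φ (fun j => ∏' p : {p : ℕ // p.Prime ∧ ¬ p ∣ N (e j)},
                    ((P (e j) p).eval (ψ (p : ℕ) *
                      ((p : ℕ) : ℂ) ^ (-(1 + (i (e j):ℂ)/2 + h + t * I))))⁻¹)) /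
                    (q.totient : ℂ) - m‖ ≤ ε) ∧
      (∀ (k : κ) (w : ℝ → ℝ) (l t0 : ℝ), Integrable w → (∀ t, 0 ≤ w t) → (∀ t, w (-t) = w t) →
        (∀ ν : ℝ, 0 ≤ ∫ t, w t * Real.cos (ν * t)) →
        Integrable (fun t => w t * (|t|⁻¹ + |t|) ^ (b k * |l|)) →
        Integrable (fun t => w (t - t0) * ‖E k t‖ ^ l) ∧
        Integrable (fun t => w t * ‖riemannZeta (1 + t * I)‖ ^ (b k * |l|)) ∧
        ∫ t, w (t - t0) * ‖E k t‖ ^ l ≤ ∫ t, w t * ‖riemannZeta (1 + t * I)‖ ^ (b k * |l|)) ∧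
      ∀ k, EV (N k) (i k) (P k) (E k) := by
  obtain ⟨E, hE1, hE2⟩ := Pool.Agent.H5.EBJ.behaviour N i b P H HR
  have hEV : ∀ k, EV (N k) (i k) (P k) (E k) := by
    intro k
    obtain ⟨Z, hZ, hZ2⟩ := hE1 0 le_rfl (by norm_num)
    have hZ0 : dimH Z = 0 := by
      rw [mul_zero, ENNReal.ofReal_zero] at hZ
      exact le_antisymm hZ bot_le
    filter_upwards [ae_of_dimH hZ0] with t ht
    obtain ⟨a1, a2, -, a4⟩ := hZ2 t ht k
    refine ⟨a1, a2, ?_⟩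
    have h4 := a4 0
    have hmap : Tendsto (fun h : ℝ => (1 + (i k:ℂ)/2 + (h:ℂ) + t * I)) (𝓝[>] 0)
        (𝓝[{s : ℂ | 1 + (i k:ℝ)/2 < s.re ∧ |s.im - t| ≤ 0 * (s.re - (1 + (i k:ℝ)/2))}]
          (1 + (i k:ℂ)/2 + t * I)) := by
      apply tendsto_nhdsWithin_of_tendsto_nhds_of_eventually_within
      · have hc : Continuous fun h : ℝ => (1 + (i k:ℂ)/2 + (h:ℂ) + t * I) := by fun_prop
        have h5 := (hc.tendsto 0).mono_left (nhdsWithin_le_nhds (s := Set.Ioi (0:ℝ)))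
        simpa using h5
      · filter_upwards [self_mem_nhdsWithin] with h hh
        have hh' : 0 < h := hh
        refine ⟨?_, ?_⟩
        · simpa using hh'
        · simp
    exact h4.comp hmap
  refine ⟨E, hE1, ?_, ?_, hEV⟩
  · intro n e φ l C hl hφ hgr
    obtain ⟨m, hm1, hm2⟩ := Pool.Agent.H81.GR.q_law n (fun j => N (e j)) (fun j => i (e j))
      (fun j => b (e j)) (fun j => P (e j)) (fun j => H (e j)) φ l C hl hφ hgr
    refine ⟨m, hm1, ?_, ?_, hm2⟩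
    · intro c hc hcl ε hε
      have hgr' : ∀ z : Fin n → ℂ, (∀ j, z j ≠ 0) → ‖φ z‖ ≤ |C| * (1 + gg l z) := by
        intro z hz
        refine (hgr z hz).trans ?_
        have hg := gg_nonneg l z
        unfold gg at hg ⊢
        exact mul_le_mul_of_nonneg_right (le_abs_self C) (by linarith)
      exact law (κ := Fin n) (N := fun j => N (e j)) (i := fun j => i (e j))
        (b := fun j => b (e j)) (P := fun j => P (e j)) (fun j => H (e j)) (fun j => hEV (e j))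
        hl (abs_nonneg C) hφ hgr' hm1 hc hcl hε
    · intro hbl
      obtain ⟨h1, m', h2, h3⟩ := hE2 n e φ l C hl hbl hφ hgr
      have hmm : m' = m := tendsto_nhds_unique h3 hm1
      rw [hmm] at h2
      exact ⟨h1, h2⟩
  · intro k w l t0 hint hnn heven hcos hgr
    apply moment_edge (H k) (w := w) (l := l) ⟨pd_of_cos hint heven hcos, hnn, hgr⟩ t0
    filter_upwards [hEV k] with t ht
    refine ⟨ht.1, ?_⟩
    have hseq : Tendsto (fun n : ℕ => 1 / ((n:ℝ) + 1)) atTop (𝓝[>] 0) :=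
      tendsto_nhdsWithin_of_tendsto_nhds_of_eventually_within _ tendsto_one_div_add_atTop_nhds_zero_nat
        (Eventually.of_forall hseq_pos)
    exact ht.2.2.comp hseq

end Pool.Agent.H91.GR
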